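import Pool.Agent.Helper80.LR.Spec

set_option autoImplicit false
open Classical Filter Topology

namespace Pool.Agent.Helper40.LR

open Pool.Agent.Helper80.LR

theorem loss : Pool.Agent.Helper80.LR.LossStmt := by
  intro κ δ hκ hδ
  refine ⟨⌈Real.exp (48 / (δ * κ))⌉₊ + 2, ?_⟩
  intro n hn p hp0 hp1 hpn q hq W hW
  have hn2 : 2 ≤ n := by omega
  have hnpos : (0:ℝ) < n := by positivity
  have hn2' : (2:ℝ) ≤ n := by exact_mod_cast hn2
  have hn1' : (1:ℝ) ≤ n := by linarith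
  have hlog2 : Real.log 2 ≤ Real.log n := Real.log_le_log (by norm_num) hn2'
  have hlogpos : 0 < Real.log n := Real.log_pos (by linarith)
  have hlogbig : 48 / (δ * κ) ≤ Real.log n := by
    rw [Real.le_log_iff_exp_le hnpos]
    have h1 : Real.exp (48 / (δ * κ)) ≤ (⌈Real.exp (48 / (δ * κ))⌉₊ : ℝ) := Nat.le_ceil _
    have h2 : (⌈Real.exp (48 / (δ * κ))⌉₊ : ℝ) ≤ n := by
      exact_mod_cast (by omega : ⌈Real.exp (48 / (δ * κ))⌉₊ ≤ n)
    linarith
  have hx1 : (1:ℝ) ≤ (n:ℝ) ^ δ := Real.one_le_rpow hn1' hδ.le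
  have hxpos : (0:ℝ) < (n:ℝ) ^ δ := by positivity
  set L : ℝ := κ * Real.log n / 4 with hL
  have hLpos : 0 < L := by positivity
  -- one vertex
  have hone : ∀ v : Fin n ⊕ Fin n,
      pr1 n p (fun G => L < ((G ∩ W ∩ star v).card : ℝ)) ≤
        Real.exp (-(δ * κ * (Real.log n) ^ 2 / 4) + 6 * Real.log n) := by
    intro v
    have h1 : pr1 n p (fun G => L < ((G ∩ W ∩ star v).card : ℝ)) ≤
        pr1 n p (fun G => L ≤ ((G ∩ (W ∩ star v)).card : ℝ)) := by
      refine pr1_mono hp0 hp1 ?_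
      intro G hG
      rw [← Finset.inter_assoc]
      exact hG.le
    refine h1.trans ((pr1_le_card hp0 hp1 hx1 (W ∩ star v) L).trans ?_)
    rw [Real.exp_add]
    have h2 : ((n:ℝ) ^ δ) ^ (-L) = Real.exp (-(δ * κ * (Real.log n) ^ 2 / 4)) := by
      rw [← Real.rpow_mul hnpos.le, Real.rpow_def_of_pos hnpos]
      congr 1
      rw [hL]; ring
    rw [h2]
    refine mul_le_mul_of_nonneg_left ?_ (Real.exp_pos _).le
    rw [Real.exp_le_exp]
    have h3 : ((W ∩ star v).card : ℝ) ≤ 2 * (n:ℝ) ^ (1 - δ) := by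
      have : ((W ∩ star v).card : ℝ) ≤ q := by exact_mod_cast hW v
      linarith
    have h4 : (n:ℝ) ^ δ * (n:ℝ) ^ (1 - δ) = n := by
      rw [← Real.rpow_add hnpos]
      simp
    calc p * (n:ℝ) ^ δ * ((W ∩ star v).card : ℝ)
        ≤ p * (n:ℝ) ^ δ * (2 * (n:ℝ) ^ (1 - δ)) :=
          mul_le_mul_of_nonneg_left h3 (by positivity)
      _ = 2 * (p * ((n:ℝ) ^ δ * (n:ℝ) ^ (1 - δ))) := by ring
      _ = 2 * (p * n) := by rw [h4]
      _ ≤ 6 * Real.log n := by linarith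
  -- union bound
  have hun : pr1 n p (fun G => ∃ v, L < ((G ∩ W ∩ star v).card : ℝ)) ≤
      ∑ _v ∈ (Finset.univ : Finset (Fin n ⊕ Fin n)),
        Real.exp (-(δ * κ * (Real.log n) ^ 2 / 4) + 6 * Real.log n) := by
    have h1 : pr1 n p (fun G => ∃ v, L < ((G ∩ W ∩ star v).card : ℝ)) ≤
        pr1 n p (fun G => ∃ v ∈ (Finset.univ : Finset (Fin n ⊕ Fin n)),
          L < ((G ∩ W ∩ star v).card : ℝ)) := by
      refine pr1_mono hp0 hp1 ?_
      rintro G ⟨v, hv⟩
      exact ⟨v, Finset.mem_univ _, hv⟩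
    refine h1.trans ((pr1_exists_le hp0 hp1 _ _).trans ?_)
    exact Finset.sum_le_sum fun v _ => hone v
  refine hun.trans ?_
  rw [Finset.sum_const, Finset.card_univ, Fintype.card_sum, Fintype.card_fin, nsmul_eq_mul]
  have h5 : (((n + n : ℕ)) : ℝ) = Real.exp (Real.log 2 + Real.log n) := by
    rw [Real.exp_add, Real.exp_log (by norm_num), Real.exp_log hnpos]
    push_cast; ring
  have h6 : 1 / (n:ℝ) ^ 4 = Real.exp (-(4 * Real.log n)) := by
    rw [Real.exp_neg, one_div]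
    congr 1
    have : (4:ℝ) * Real.log n = ((4:ℕ):ℝ) * Real.log n := by norm_num
    rw [this, Real.exp_nat_mul, Real.exp_log hnpos]
  rw [h5, h6, ← Real.exp_add, Real.exp_le_exp]
  have h7 : 48 * Real.log n ≤ δ * κ * (Real.log n) ^ 2 := by
    have h8 : 48 ≤ δ * κ * Real.log n := by
      rw [div_le_iff₀ (by positivity)] at hlogbig
      linarith
    nlinarith
  linarith

end Pool.Agent.Helper40.LR
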